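import Pool.Agent.T6.H59.NN.Final

/-!
# Q2: large numbers of uncovered vertices have a probability much larger than `1 / n`

For every dimension `d ≥ 2 ^ 20` there are `c, γ > 0` such that for all `n ≥ 1` the number of the uncovered
vertices of the random nearest neighbour tree `T_n` on the torus exceeds `c n ^ γ` with a probability of at
least `c n ^ (γ - 1)`. Hence for a suitable `γ > 0` and all `C, k` the probability that there are at most
`C (log n) ^ k` uncovered vertices is smaller than `1 - n ^ (γ - 1)`, for all large `n`; in particular it is not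
at least `1 - 1 / n` for all `n ≥ 2`: the answer to Q2 is no for these `d`.
-/

set_option autoImplicit false

namespace Pool.Agent.Results.MP_959362_pr.TailOfUncovered

open MeasureTheory Filter Pool.Agent.T6.H59.NN

/-- the expectation is at most `B` plus `n` times the probability that the number exceeds `B` -/
lemma exp_le {d n : ℕ} {B : ℝ} :
    ∫ x, ((unc x n).card : ℝ) ∂(unif d) ≤
      |B| + n * (1 - (unif d).real {x | ((unc x n).card : ℝ) ≤ B}) := by
  have hu : unif d = P d := rfl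
  rw [hu]
  set A : Set (ℕ → Torus d) := {x | ((unc x n).card : ℝ) ≤ B} with hA
  have hAm : MeasurableSet A := measurableSet_le (measurable_card n) measurable_const
  have h1 : ∀ x : ℕ → Torus d, ((unc x n).card : ℝ) ≤ |B| + Set.indicator Aᶜ (fun _ => (n : ℝ)) x := by
    intro x
    by_cases hx : x ∈ A
    · rw [Set.indicator_of_notMem (by simpa using hx), add_zero]
      exact le_trans hx (le_abs_self B)
    · rw [Set.indicator_of_mem (by simpa using hx)]
      have h2 : (unc x n).card ≤ n := by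
        refine (Finset.card_le_card (t := Finset.range n) ?_).trans (by simp)
        intro v hv
        exact Finset.mem_range.mpr (mem_unc_iff.mp hv).1
      have h3 : ((unc x n).card : ℝ) ≤ n := by exact_mod_cast h2
      have h4 := abs_nonneg B
      linarith
  have h3 : Integrable (fun x : ℕ → Torus d => |B| + Set.indicator Aᶜ (fun _ => (n : ℝ)) x) (P d) :=
    (integrable_const |B|).add ((integrable_const (n : ℝ)).indicator hAm.compl)
  refine (integral_mono (integrable_card n) h3 h1).trans ?_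
  rw [integral_add (integrable_const |B|) ((integrable_const (n : ℝ)).indicator hAm.compl),
    integral_const, integral_indicator_const _ hAm.compl, smul_eq_mul, smul_eq_mul,
    probReal_univ, one_mul, probReal_compl_eq_one_sub hAm]
  linarith

theorem result (d : ℕ) (hd : 2 ^ 20 ≤ d) :
    (∃ c γ : ℝ, 0 < c ∧ 0 < γ ∧ ∀ n : ℕ, 1 ≤ n →
      c * (n : ℝ) ^ (γ - 1) ≤ (unif d).real {x | c * (n : ℝ) ^ γ < ((unc x n).card : ℝ)}) ∧
    (∃ γ : ℝ, 0 < γ ∧ ∀ C k : ℝ, ∃ n₀ : ℕ, ∀ n : ℕ, n₀ ≤ n →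
      (unif d).real {x | ((unc x n).card : ℝ) ≤ C * Real.log n ^ k} < 1 - (n : ℝ) ^ (γ - 1)) ∧
    ¬ ∃ C k : ℝ, ∀ n : ℕ, 2 ≤ n →
      1 - 1 / (n : ℝ) ≤ (unif d).real {x | ((unc x n).card : ℝ) ≤ C * Real.log n ^ k} := by
  obtain ⟨c, hc, γ, hγ, hlow⟩ := power_lower (d := d) hd
  have hu : unif d = P d := rfl
  have key : ∀ n : ℕ, 1 ≤ n → ∀ B : ℝ, |B| ≤ c / 2 * (n : ℝ) ^ γ →
      (unif d).real {x | ((unc x n).card : ℝ) ≤ B} ≤ 1 - c / 2 * (n : ℝ) ^ (γ - 1) := by
    intro n hn B hB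
    have hn0 : (0 : ℝ) < n := by exact_mod_cast hn
    have h1 := hlow n hn
    rw [← hu] at h1
    have h2 := exp_le (d := d) (n := n) (B := B)
    have h3 : (n : ℝ) ^ γ = n * (n : ℝ) ^ (γ - 1) := by
      rw [Real.rpow_sub_one hn0.ne', mul_div_cancel₀ _ hn0.ne']
    have h4 : c / 2 * (n : ℝ) ^ γ ≤ n * (1 - (unif d).real {x | ((unc x n).card : ℝ) ≤ B}) := by
      linarith
    rw [h3] at h4
    have h5 : n * (c / 2 * (n : ℝ) ^ (γ - 1)) ≤
        n * (1 - (unif d).real {x | ((unc x n).card : ℝ) ≤ B}) := by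
      linarith
    have h6 := le_of_mul_le_mul_left h5 hn0
    linarith
  have hpart2 : ∀ C k : ℝ, ∃ n₀ : ℕ, ∀ n : ℕ, n₀ ≤ n →
      (unif d).real {x | ((unc x n).card : ℝ) ≤ C * Real.log n ^ k} < 1 - (n : ℝ) ^ (γ / 2 - 1) := by
    intro C k
    have e1 := log_lt (c / 2) γ (by linarith) hγ C k
    have e2 : Tendsto (fun n : ℕ => c / 2 * (n : ℝ) ^ (γ / 2)) atTop atTop :=
      ((tendsto_rpow_atTop (by linarith : (0 : ℝ) < γ / 2)).comp
        tendsto_natCast_atTop_atTop).const_mul_atTop (by linarith)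
    obtain ⟨n₀, h⟩ := eventually_atTop.1 (e1.and ((e2.eventually_gt_atTop 1).and
      (eventually_ge_atTop 1)))
    refine ⟨n₀, fun n hn => ?_⟩
    obtain ⟨h1, h2, h3⟩ := h n hn
    have hn1 : (1 : ℝ) ≤ n := by exact_mod_cast h3
    have hn0 : (0 : ℝ) < n := by linarith
    have h4 : |C * Real.log n ^ k| ≤ c / 2 * (n : ℝ) ^ γ := by
      rw [abs_mul, abs_of_nonneg (Real.rpow_nonneg (Real.log_nonneg hn1) k)]
      linarith
    refine (key n h3 _ h4).trans_lt ?_
    have h5 : (n : ℝ) ^ (γ - 1) = (n : ℝ) ^ (γ / 2) * (n : ℝ) ^ (γ / 2 - 1) := by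
      rw [← Real.rpow_add hn0]
      congr 1
      ring
    have h6 : 0 < (n : ℝ) ^ (γ / 2 - 1) := Real.rpow_pos_of_pos hn0 _
    rw [h5]
    nlinarith
  refine ⟨⟨c / 2, γ, by linarith, hγ, fun n hn => ?_⟩, ⟨γ / 2, by linarith, hpart2⟩, ?_⟩
  · have hn0 : (0 : ℝ) < n := by exact_mod_cast hn
    have hB : |c / 2 * (n : ℝ) ^ γ| ≤ c / 2 * (n : ℝ) ^ γ := by
      rw [abs_of_nonneg (mul_nonneg (by linarith) (Real.rpow_nonneg hn0.le _))]
    have h1 := key n hn _ hB
    have hAm : MeasurableSet {x : ℕ → Torus d | ((unc x n).card : ℝ) ≤ c / 2 * (n : ℝ) ^ γ} :=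
      measurableSet_le (measurable_card n) measurable_const
    have h2 : {x : ℕ → Torus d | c / 2 * (n : ℝ) ^ γ < ((unc x n).card : ℝ)} =
        {x : ℕ → Torus d | ((unc x n).card : ℝ) ≤ c / 2 * (n : ℝ) ^ γ}ᶜ := by
      ext x
      simp [not_le]
    rw [h2, hu, probReal_compl_eq_one_sub hAm, ← hu]
    linarith
  · rintro ⟨C, k, h⟩
    obtain ⟨n₀, h1⟩ := hpart2 C k
    have h2 := h1 (max n₀ 2) (le_max_left _ _)
    have h3 := h (max n₀ 2) (le_max_right _ _)
    have hn2 : (2 : ℝ) ≤ ((max n₀ 2 : ℕ) : ℝ) := by exact_mod_cast le_max_right n₀ 2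
    have hn0 : (0 : ℝ) < ((max n₀ 2 : ℕ) : ℝ) := by linarith
    have h4 : 1 / ((max n₀ 2 : ℕ) : ℝ) ≤ ((max n₀ 2 : ℕ) : ℝ) ^ (γ / 2 - 1) := by
      rw [Real.rpow_sub_one hn0.ne']
      apply div_le_div_of_nonneg_right _ hn0.le
      exact Real.one_le_rpow (by linarith) (by linarith)
    linarith

end Pool.Agent.Results.MP_959362_pr.TailOfUncovered
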